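import Mathlib
import Pool.Agent.Helper436.AD.A3

set_option autoImplicit false
set_option linter.unusedSectionVars false

open Filter Topology

namespace Pool.Agent.Helper278.SF

open Pool.Agent.Helper278 Pool.Agent.Helper436.SM Pool.Agent.Helper436.SN
open Pool.Agent.Helper436.AD

variable {H : Type} [NormedAddCommGroup H] [InnerProductSpace ℂ H] [CompleteSpace H]

/-- the matrix algebra over the ultrapower is the ultrapower of the amplification (abstract
models) -/
theorem amp_ultraQ {m : ℕ} (hm : 1 ≤ m) {N : VonNeumannAlgebra H} {τ : Elt N → ℂ}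
    (h : IsIIOneFactor N τ) {M : VonNeumannAlgebra (Dir m H)}
    {e : Matrix (Fin m) (Fin m) (Elt N) ≃⋆ₐ[ℂ] Elt M} (he : IsAmp m N M e)
    {U : Ultrafilter ℕ} {Q : Type} [Ring Q] [StarRing Q] [Algebra ℂ Q]
    {π : (ℕ → Elt N) → Q} {φ : Q → ℂ}
    (hπ : CE.IsTracialUltrapower τ U π φ) :
    CE.IsTracialUltrapower (ampTr e τ) U
      (fun y => (Matrix.of fun i j => π fun n => (e.symm (y n)) i j : Matrix (Fin m) (Fin m) Q))
      (mtr m φ) := by
  have hq := hπ.quot
  have hm0 : (0 : ℝ) < m := by exact_mod_cast hm
  have hbe : ∀ y : ℕ → Elt M, CE.BddFam y → ∀ i j, CE.BddFam (fun n => (e.symm (y n)) i j) := by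
    rintro y ⟨C, hC⟩ i j
    refine ⟨C, fun n => ?_⟩
    have h1 := amp_ultra_entry he (e.symm (y n)) i j
    rw [e.apply_symm_apply] at h1
    exact h1.trans (hC n)
  -- the trace of a square
  have htr : ∀ y : Elt M, ampTr e τ (star y * y) =
      ((∑ i, ∑ k, (τ (star ((e.symm y) k i) * (e.symm y) k i)).re) / m : ℝ) := by
    intro y
    have hT := trAlg (mkState N τ h.normal h.trace)
    unfold ampTr mtr
    rw [map_mul, map_star]
    rw [Complex.ofReal_div, Complex.ofReal_sum]
    congr 1
    refine Finset.sum_congr rfl fun i _ => ?_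
    rw [Matrix.mul_apply, Complex.ofReal_sum]
    have h1 : τ (∑ k, (star (e.symm y)) i k * (e.symm y) k i) =
        ∑ k, τ ((star (e.symm y)) i k * (e.symm y) k i) :=
      map_sum (mkState N τ h.normal h.trace).τ _ _
    rw [h1]
    refine Finset.sum_congr rfl fun k _ => ?_
    rw [Matrix.star_apply]
    refine Complex.ext ?_ ?_
    · rw [Complex.ofReal_re]
    · rw [Complex.ofReal_im]
      exact hT.im_zero _
  refine ⟨⟨?_, ?_, ?_, ?_, ?_, ?_, ?_⟩, ?_⟩
  · ext1 i j
    rw [Matrix.of_apply]
    show (π fun _ => (e.symm (1 : Elt M)) i j) = _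
    rw [map_one]
    by_cases hij : i = j
    · subst hij
      simp only [Matrix.one_apply_eq]
      exact hq.one
    · simp only [Matrix.one_apply_ne hij]
      exact amp_ultra_zero hq
  · intro x y hx hy
    ext1 i j
    simp only [Matrix.of_apply, Matrix.add_apply, map_add]
    exact hq.add _ _ (hbe x hx i j) (hbe y hy i j)
  · intro x y hx hy
    ext1 i j
    simp only [Matrix.of_apply, map_mul, Matrix.mul_apply]
    rw [(amp_ultra_sum hq Finset.univ
      (fun k n => (e.symm (x n)) i k * (e.symm (y n)) k j)
      (fun k => amp_ultra_bmul (hbe x hx i k) (hbe y hy k j))).2]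
    refine Finset.sum_congr rfl fun k _ => ?_
    exact hq.mul _ _ (hbe x hx i k) (hbe y hy k j)
  · intro c x hx
    ext1 i j
    simp only [Matrix.of_apply, map_smul, Matrix.smul_apply]
    exact hq.smul c _ (hbe x hx i j)
  · intro x hx
    ext1 i j
    simp only [Matrix.of_apply, map_star, Matrix.star_apply]
    exact hq.star _ (hbe x hx j i)
  · intro q
    choose x hx1 hx2 using fun i j => hq.surj (q i j)
    refine ⟨fun n => e (Matrix.of fun i j => x i j n), ?_, ?_⟩
    · choose C hC using hx1
      refine ⟨∑ i, ∑ j, C i j, fun n => (amp_ultra_norm he _).trans ?_⟩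
      exact Finset.sum_le_sum fun i _ => Finset.sum_le_sum fun j _ => hC i j n
    · ext1 i j
      simp only [Matrix.of_apply, e.symm_apply_apply]
      exact hx2 i j
  · intro y hy
    have h1 : (Matrix.of fun i j => π fun n => (e.symm (y n)) i j : Matrix (Fin m) (Fin m) Q) = 0 ↔
        ∀ i j, (π fun n => (e.symm (y n)) i j) = 0 := by
      constructor
      · intro h i j
        exact congrFun (congrFun h i) j
      · intro h
        ext1 i j
        exact h i j
    rw [h1]
    have h2 : ∀ i j, ((π fun n => (e.symm (y n)) i j) = 0 ↔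
        Tendsto (fun n => τ (star ((e.symm (y n)) i j) * (e.symm (y n)) i j)) U (𝓝 0)) :=
      fun i j => hq.ker _ (hbe y hy i j)
    have hT := trAlg (mkState N τ h.normal h.trace)
    have hre : ∀ a : Elt N, 0 ≤ (τ (star a * a)).re := fun a => hT.re_nonneg a
    have him : ∀ a : Elt N, (τ (star a * a)).im = 0 := fun a => hT.im_zero a
    constructor
    · intro h3
      have h4 : ∀ i j, Tendsto (fun n => (τ (star ((e.symm (y n)) i j) *
          (e.symm (y n)) i j)).re) U (𝓝 0) := by
        intro i j
        have := (Complex.continuous_re.tendsto 0).comp ((h2 i j).1 (h3 i j))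
        rw [Complex.zero_re] at this
        exact this
      have h5 : Tendsto (fun n => (∑ i, ∑ k, (τ (star ((e.symm (y n)) k i) *
          (e.symm (y n)) k i)).re) / (m : ℝ)) U (𝓝 0) := by
        have h6 := tendsto_finsetSum (Finset.univ : Finset (Fin m)) fun i _ =>
          tendsto_finsetSum (Finset.univ : Finset (Fin m)) fun k _ => h4 k i
        have h7 := h6.div_const (m : ℝ)
        simpa using h7
      have h8 := (Complex.continuous_ofReal.tendsto 0).comp h5
      rw [Complex.ofReal_zero] at h8
      refine h8.congr fun n => ?_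
      rw [htr]
      rfl
    · intro h3 i j
      rw [h2]
      have h4 : Tendsto (fun n => (m : ℝ) * ‖ampTr e τ (star (y n) * y n)‖) U (𝓝 0) := by
        have := (h3.norm).const_mul (m : ℝ)
        simpa using this
      refine squeeze_zero_norm (fun n => ?_) h4
      rw [htr, Complex.norm_real, Real.norm_eq_abs]
      have h5 : 0 ≤ ∑ i, ∑ k, (τ (star ((e.symm (y n)) k i) * (e.symm (y n)) k i)).re :=
        Finset.sum_nonneg fun i _ => Finset.sum_nonneg fun k _ => hre _
      rw [abs_of_nonneg (div_nonneg h5 hm0.le), mul_div_cancel₀ _ hm0.ne']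
      have h6 : ‖τ (star ((e.symm (y n)) i j) * (e.symm (y n)) i j)‖ =
          (τ (star ((e.symm (y n)) i j) * (e.symm (y n)) i j)).re := by
        have e1 : τ (star ((e.symm (y n)) i j) * (e.symm (y n)) i j) =
            ((τ (star ((e.symm (y n)) i j) * (e.symm (y n)) i j)).re : ℂ) := by
          refine Complex.ext ?_ ?_
          · rw [Complex.ofReal_re]
          · rw [Complex.ofReal_im]
            exact him _
        rw [e1, Complex.norm_real, Real.norm_eq_abs, Complex.ofReal_re]
        exact abs_of_nonneg (hre _)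
      rw [h6]
      refine le_trans ?_ (Finset.single_le_sum
        (f := fun i => ∑ k, (τ (star ((e.symm (y n)) k i) * (e.symm (y n)) k i)).re)
        (fun i _ => Finset.sum_nonneg fun k _ => hre _) (Finset.mem_univ j))
      exact Finset.single_le_sum
        (f := fun k => (τ (star ((e.symm (y n)) k j) * (e.symm (y n)) k j)).re)
        (fun k _ => hre _) (Finset.mem_univ i)
  · intro y hy
    have h1 : mtr m φ (Matrix.of fun i j => π fun n => (e.symm (y n)) i j) =
        (∑ i, φ (π fun n => (e.symm (y n)) i i)) / m := rfl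
    rw [h1]
    unfold ampTr mtr
    exact (tendsto_finsetSum (Finset.univ : Finset (Fin m)) fun i _ =>
      hπ.trace _ (hbe y hy i i)).div_const _

end Pool.Agent.Helper278.SF
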