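import Mathlib
import Pool.Agent.Helper436.AD.StmtU
import Pool.Agent.Helper436.AD.Fin
import Pool.Agent.Helper278.SF.AmpQ

set_option autoImplicit false
set_option linter.unusedSectionVars false

namespace Pool.Agent.Helper278.SF

open Pool.Agent.Helper278 Pool.Agent.Helper436.SM Pool.Agent.Helper436.SN
open Pool.Agent.Helper436.AD

theorem sep_nonfull :
    ∃ N : TU.SepFactor, ∀ U : Ultrafilter ℕ, (∀ n, {n} ∉ U) →
      Nonempty (TU.UltraPow U N) ∧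
        ∀ (Q : Type) [Ring Q] [StarRing Q] [Algebra ℂ Q] (π : (ℕ → Elt N.alg) → Q) (φ : Q → ℂ),
          CE.IsTracialUltrapower N.tr U π φ → IsEmpty (Q ≃⋆ₐ[ℂ] Matrix (Fin 3) (Fin 3) Q) := by
  obtain ⟨A, _, _, _, _, φ, hB⟩ := exists_Big
  obtain ⟨K, _, _, _, P, τ, hfac, hsep, hsat, c, hc, hun⟩ := hull hB
  obtain ⟨P3, e3, he3⟩ := exists_amp 3 P
  have hfac3 := amp_factor (by norm_num) hfac he3
  have key : ¬ ElemEquiv.{0} τ (ampTr e3 τ) := by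
    intro hE
    have h1 : Sat (fFF (10 ^ 8)) (ampTr e3 τ) c :=
      Sat.elem hfac hfac3 hE (fFF (10 ^ 8)) (half_lt_self hc) (hsat (c / 2) (half_pos hc))
    apply hun
    exact Sat.iso (φ := ampTr e3 τ) (ψ := mtr 3 τ) e3.symm (fun x => rfl) h1
  refine ⟨⟨K, P, τ, hfac, hsep⟩, fun U hU => ⟨?_, ?_⟩⟩
  · obtain ⟨L, _, _, _, Q, π, ψ, hπ⟩ := exists_ultra_vn hfac U hU
    exact ⟨⟨L, Q, π, ψ, hπ⟩⟩
  · intro Q _ _ _ π ψ hπ
    refine ⟨fun E => key ?_⟩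
    exact ⟨ℕ, ℕ, U, U, Q, Matrix (Fin 3) (Fin 3) Q, inferInstance, inferInstance, inferInstance,
      inferInstance, inferInstance, inferInstance, π, ψ, _, mtr 3 ψ, hπ,
      amp_ultraQ (by norm_num) hfac he3 hπ, ⟨E⟩⟩

end Pool.Agent.Helper278.SF
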